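import Mathlib

namespace Pool.Agent.Results.MP_06c496_co.Regularize

/-- The vertex centroid of a polygon in the plane `ℂ`. -/
noncomputable def centroid {n : ℕ} (v : Fin n → ℂ) : ℂ := (∑ i, v i) / n

/-- One vertex-centroid move: a vertex different from the centroid is replaced by a point of the
line through it and the centroid, all other vertices stay fixed. -/
def Move {n : ℕ} (v w : Fin n → ℂ) : Prop :=
  ∃ i, v i ≠ centroid v ∧ w i ∈ line[ℝ, v i, centroid v] ∧ ∀ j, j ≠ i → w j = v j

/-- Simple polygons: distinct vertices, and two different closed edges meet only in common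
end vertices (`finRotate n i` is the cyclic successor of `i`). -/
def IsSimple {n : ℕ} (v : Fin n → ℂ) : Prop :=
  Function.Injective v ∧ ∀ i j, i ≠ j →
    segment ℝ (v i) (v (finRotate n i)) ∩ segment ℝ (v j) (v (finRotate n j)) ⊆
      {v i, v (finRotate n i)} ∩ {v j, v (finRotate n j)}

/-- Convex regular polygons with the vertices in cyclic order (either orientation). -/
def IsRegular {n : ℕ} (w : Fin n → ℂ) : Prop :=
  ∃ c r : ℂ, r ≠ 0 ∧
    ((∀ k : Fin n, w k = c + r * Complex.exp (2 * Real.pi * Complex.I * (k : ℕ) / n)) ∨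
     (∀ k : Fin n, w k = c + r * Complex.exp (-(2 * Real.pi * Complex.I * (k : ℕ) / n))))

open Function Finset

abbrev Reach {n : ℕ} (v w : Fin n → ℂ) : Prop := Relation.ReflTransGen Move v w

lemma transv (R : ℂ → ℂ → ℂ → ℂ → Prop) (κ : ℝ) (h0 : 0 < κ) (h1 : κ < 1)
    (tr : ∀ {a b c d e f}, R a b c d → R c d e f → R a b e f)
    (hA : ∀ (t : ℝ) a b, R a b (κ * b + t * (a - κ * b)) b)
    (hB : ∀ (t : ℝ) a b, R a b a (κ * a + t * (b - κ * a))) (z : ℝ) (a b : ℂ) :
    R a b (a + z * b) b := by
  have k0 : (κ : ℂ) ≠ 0 := by exact_mod_cast h0.ne'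
  have k1 : (κ : ℂ) ^ 2 + 1 ≠ 0 := by
    have : κ ^ 2 + 1 ≠ 0 := by positivity
    exact_mod_cast this
  have k2 : (κ : ℂ) ^ 2 - 2 ≠ 0 := by
    have : κ ^ 2 - 2 ≠ 0 := by nlinarith
    exact_mod_cast this
  have k3r : κ ^ 4 + κ ^ 2 - 2 ≠ 0 := by
    have : κ ^ 2 < 1 := by nlinarith
    nlinarith
  have k3 : (κ : ℂ) ^ 4 + κ ^ 2 - 2 ≠ 0 := by exact_mod_cast k3r
  have cast : ∀ {a b c d c' d'}, R a b c d → c = c' → d = d' → R a b c' d' := by
    rintro a b c d c' d' h rfl rfl
    exact h
  have W : ∀ a b, R a b (-κ / (κ ^ 2 - 2) * b) ((κ ^ 2 + 1) / (2 * κ) * a) := by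
    intro a b
    refine cast (tr (hA (1 + 1 / κ ^ 2) a b) (tr (hB (1 / 2) _ _) (hA (κ ^ 2 / (κ ^ 2 - 2)) _ _)))
      ?_ ?_ <;> push_cast <;> field_simp <;> ring
  have W' : ∀ a b, R a b (2 * κ / (κ ^ 2 + 1) * b) (-(κ ^ 2 - 2) / κ * a) := by
    intro a b
    refine cast (tr (hA ((κ ^ 2 - 2) / κ ^ 2) a b) (tr (hB 2 _ _) (hA (κ ^ 2 / (κ ^ 2 + 1)) _ _)))
      ?_ ?_ <;> push_cast <;> field_simp <;> ring
  have T : ∀ (ρ : ℝ), 1 + ρ ≠ 0 → ∀ a b, R a b
      (a + (ρ * (κ * (κ ^ 4 + κ ^ 2 - 2) / ((κ ^ 2 + 1) * (2 - κ ^ 2))) : ℝ) * b) b := by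
    intro ρ hρ a b
    have hρ' : (1 + ρ : ℂ) ≠ 0 := by exact_mod_cast hρ
    have k2' : 2 - (κ : ℂ) ^ 2 ≠ 0 := fun h => k2 (by linear_combination -h)
    refine cast (tr (W a b) (tr (hB (1 / (1 + ρ)) _ _) (tr (W' _ _) (hA (1 + ρ) _ _)))) ?_ ?_ <;>
      push_cast <;> field_simp <;> ring
  set μ : ℝ := κ * (κ ^ 4 + κ ^ 2 - 2) / ((κ ^ 2 + 1) * (2 - κ ^ 2)) with hμ
  have hμ0 : μ ≠ 0 := by
    have : 2 - κ ^ 2 ≠ 0 := by nlinarith
    rw [hμ]
    positivity
  by_cases hz : 1 + z / μ = 0
  · have h2 : 1 + z / μ / 2 ≠ 0 := by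
      intro h
      linarith
    refine cast (tr (T _ h2 a b) (T _ h2 _ b)) ?_ rfl
    have : (μ : ℂ) ≠ 0 := by exact_mod_cast hμ0
    push_cast
    field_simp
    ring
  · refine cast (T _ hz a b) ?_ rfl
    rw [div_mul_cancel₀ _ hμ0]

variable {n : ℕ}

lemma sum_upd (v : Fin n → ℂ) (i : Fin n) (a : ℂ) :
    ∑ k, update v i a k = ∑ k, v k - v i + a := by
  rw [Finset.sum_update_of_mem (mem_univ i), ← Finset.add_sum_erase _ _ (mem_univ i),
    sdiff_singleton_eq_erase]
  ring

lemma basic (v : Fin n → ℂ) (i : Fin n) (t : ℝ) :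
    Reach v (update v i (v i + t * (n * v i - ∑ k, v k))) := by
  have hn : (n : ℂ) ≠ 0 := by exact_mod_cast (Fin.pos i).ne'
  by_cases h : v i = centroid v
  · have : (n : ℂ) * v i - ∑ k, v k = 0 := by
      rw [h, centroid]
      field_simp
      ring
    rw [this, mul_zero, add_zero, update_eq_self]
  · refine Relation.ReflTransGen.single ⟨i, h, ?_, fun j hj => update_of_ne hj _ _⟩
    have := AffineMap.lineMap_mem_affineSpan_pair (k := ℝ) (-(t * n)) (v i) (centroid v)
    convert this using 1
    rw [AffineMap.lineMap_apply, update_self, centroid]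
    simp only [vsub_eq_sub, vadd_eq_add, Complex.real_smul]
    push_cast
    field_simp
    ring

lemma slide0 (hn : 3 ≤ n) (v : Fin n → ℂ) (i j : Fin n) (hij : i ≠ j) (z : ℝ) :
    Reach v (update v i (v i + z * ((n - 1) * v j - (∑ k, v k - v i)))) := by
  have h3 : (3 : ℝ) ≤ n := by exact_mod_cast hn
  have n0 : (n : ℂ) ≠ 0 := by exact_mod_cast (Fin.pos i).ne'
  have n1 : (n : ℂ) - 1 ≠ 0 := by
    have : (n : ℝ) - 1 ≠ 0 := by linarith
    exact_mod_cast this
  have n2 : (n : ℂ) - 2 ≠ 0 := by
    have : (n : ℝ) - 2 ≠ 0 := by linarith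
    exact_mod_cast this
  set q : ℂ := (∑ k, v k - v i - v j) / (n - 2) with hq
  let g : ℂ → ℂ → Fin n → ℂ := fun a b => update (update v i (q + a)) j (q + b)
  have gs : ∀ a b, ∑ k, g a b k = n * q + a + b := by
    intro a b
    simp only [g]
    rw [sum_upd, sum_upd, update_of_ne hij.symm, hq]
    field_simp
    ring
  have gi : ∀ a b, g a b i = q + a := fun a b => by simp [g, update_of_ne hij]
  have gj : ∀ a b, g a b j = q + b := fun a b => by simp [g]
  have key := transv (fun a b c d => Reach (g a b) (g c d)) (1 / (n - 1))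
    (by apply div_pos <;> linarith) (by rw [div_lt_one] <;> linarith)
    (fun h1 h2 => h1.trans h2)
    (by
      intro t a b
      have := basic (g a b) i ((t - 1) / (n - 1))
      rw [gs, gi] at this
      convert this using 1
      simp only [g]
      rw [update_comm hij.symm, update_idem]
      congr 2
      push_cast
      field_simp
      ring)
    (by
      intro t a b
      have := basic (g a b) j ((t - 1) / (n - 1))
      rw [gs, gj] at this
      convert this using 1
      simp only [g]
      rw [update_idem]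
      congr 1
      push_cast
      field_simp
      ring) (z * (n - 2)) (v i - q) (v j - q)
  simp only [g, add_sub_cancel, update_eq_self] at key
  convert key using 1
  rw [update_comm hij, update_eq_self]
  congr 1
  rw [hq]
  push_cast
  field_simp
  ring

lemma slide (hn : 3 ≤ n) (v : Fin n → ℂ) (i j k : Fin n) (hij : i ≠ j) (hik : i ≠ k) (z : ℝ) :
    Reach v (update v i (v i + z * (v j - v k))) := by
  have h3 : (3 : ℝ) ≤ n := by exact_mod_cast hn
  have n1 : (n : ℂ) - 1 ≠ 0 := by
    have : (n : ℝ) - 1 ≠ 0 := by linarith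
    exact_mod_cast this
  have h1 := slide0 hn v i j hij (z / (n - 1))
  have h2 := slide0 hn (update v i (v i + (z / (n - 1) : ℝ) * ((n - 1) * v j - (∑ k, v k - v i))))
    i k hik (-z / (n - 1))
  rw [update_idem, sum_upd, update_self, update_of_ne hik.symm] at h2
  convert h1.trans h2 using 2
  push_cast
  field_simp
  ring

/-- Twice the signed area of a triangle. -/
def D (a b c : ℂ) : ℝ := (b - a).re * (c - a).im - (b - a).im * (c - a).re

lemma solve (u w x : ℂ) (h : u.re * w.im - u.im * w.re ≠ 0) :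
    ∃ s t : ℝ, x = s * u + t * w := by
  obtain ⟨d, hd⟩ : ∃ d, d = u.re * w.im - u.im * w.re := ⟨_, rfl⟩
  rw [← hd] at h
  refine ⟨(x.re * w.im - x.im * w.re) / d, (u.re * x.im - u.im * x.re) / d, ?_⟩
  apply Complex.ext <;>
    simp only [Complex.add_re, Complex.add_im, Complex.re_ofReal_mul, Complex.im_ofReal_mul] <;>
    field_simp <;> rw [hd] <;> ring

lemma free (hn : 3 ≤ n) (v : Fin n → ℂ) (i j k l : Fin n) (hij : i ≠ j) (hik : i ≠ k)
    (hil : i ≠ l) (h : D (v j) (v k) (v l) ≠ 0) (w : ℂ) : Reach v (update v i w) := by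
  obtain ⟨s, t, e⟩ := solve (v k - v j) (v l - v j) (w - v i) h
  have h1 := slide hn v i k j hik hij s
  have h2 := slide hn (update v i (v i + s * (v k - v j))) i l j hil hij t
  rw [update_idem, update_self, update_of_ne hil.symm, update_of_ne hij.symm] at h2
  convert h1.trans h2 using 2
  linear_combination e

lemma anyw (hn : 3 ≤ n) (v : Fin n → ℂ) (i j k : Fin n) (h : D (v j) (v k) (v i) ≠ 0) (w : ℂ) :
    Reach v (update v i w) := by
  have hij : i ≠ j := by
    rintro rfl
    exact h (by simp [D])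
  have hik : i ≠ k := by
    rintro rfl
    exact h (by simp only [D]; ring)
  by_cases hl : ∃ l, i ≠ l ∧ D (v j) (v k) (v l) ≠ 0
  · obtain ⟨l, hil, hl⟩ := hl
    exact free hn v i j k l hij hik hil hl w
  push Not at hl
  have hs : ∑ l, D (v j) (v k) (v l) = D (v j) (v k) (v i) :=
    Finset.sum_eq_single i (fun l _ h => hl l h.symm) (by simp)
  have hs2 : ∑ l, D (v j) (v k) (v l) = (v k - v j).re * ((∑ l, v l).im - n * (v j).im) -
      (v k - v j).im * ((∑ l, v l).re - n * (v j).re) := by
    simp only [D, Complex.re_sum, Complex.im_sum, sum_sub_distrib, ← mul_sum, Complex.sub_re,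
      Complex.sub_im, sum_const, card_univ, Fintype.card_fin, nsmul_eq_mul]
  have h3 : (3 : ℝ) ≤ n := by exact_mod_cast hn
  obtain ⟨s, t, e⟩ := solve (v k - v j) (n * v i - ∑ l, v l) (w - v i) (by
    have : (v k - v j).re * (n * v i - ∑ l, v l).im - (v k - v j).im * (n * v i - ∑ l, v l).re =
        (n - 1) * D (v j) (v k) (v i) := by
      rw [hs] at hs2
      simp only [D, Complex.sub_re, Complex.sub_im, Complex.mul_re, Complex.mul_im,
        Complex.natCast_re, Complex.natCast_im] at hs2 ⊢
      linear_combination hs2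
    rw [this]
    exact mul_ne_zero (by linarith) h)
  have h1 := basic v i t
  have h2 := slide hn (update v i (v i + t * (n * v i - ∑ l, v l))) i k j hik hij s
  rw [update_idem, update_self, update_of_ne hik.symm, update_of_ne hij.symm] at h2
  convert h1.trans h2 using 2
  linear_combination e

lemma fin_roots (a b : ℂ) (h : a ≠ b) : {t : ℝ | D a b ⟨t, t ^ 2⟩ = 0}.Finite := by
  open Polynomial in
  have hp : (C (b - a).re * X ^ 2 - C (b - a).im * X +
      C ((b - a).im * a.re - (b - a).re * a.im) : ℝ[X]) ≠ 0 := by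
    intro h0
    have h2 := congrArg (fun p => p.coeff 2) h0
    have h1 := congrArg (fun p => p.coeff 1) h0
    simp [coeff_X, coeff_C, -map_sub, -map_mul] at h1 h2
    apply h
    apply Complex.ext <;> linarith
  refine (Polynomial.finite_setOfPred_isRoot hp).subset ?_
  intro t ht
  simp only [Set.mem_ofPred_eq, D, Polynomial.IsRoot, Polynomial.eval_add, Polynomial.eval_sub,
    Polynomial.eval_mul, Polynomial.eval_C, Polynomial.eval_pow, Polynomial.eval_X,
    Complex.sub_re, Complex.sub_im] at ht ⊢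
  linear_combination ht

lemma reach_all (hn : 3 ≤ n) (v w : Fin n → ℂ) (i j k : Fin n) (h : D (v j) (v k) (v i) ≠ 0)
    (hw : D (w j) (w k) (w i) ≠ 0) (hjk : w j ≠ v k) : Reach v w := by
  have hij : i ≠ j := by
    rintro rfl
    exact h (by simp [D])
  have hik : i ≠ k := by
    rintro rfl
    exact h (by simp only [D]; ring)
  have hjk' : j ≠ k := by
    rintro rfl
    exact h (by simp [D])
  have e1 : v j ≠ v k := fun e => h (by simp [D, e])
  have e2 : w j ≠ w k := fun e => hw (by simp [D, e])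
  obtain ⟨t, ht⟩ := (((fin_roots _ _ e1).union (fin_roots _ _ hjk)).union
    (fin_roots _ _ e2)).exists_notMem
  simp only [Set.mem_union, Set.mem_ofPred_eq, not_or] at ht
  obtain ⟨⟨t1, t2⟩, t3⟩ := ht
  set P : ℂ := ⟨t, t ^ 2⟩
  have s1 := anyw hn v i j k h P
  have s2 := anyw hn (update v i P) j k i (by
    rw [update_self, update_of_ne hik.symm, update_of_ne hij.symm]
    intro h0
    apply t1
    simp only [D, Complex.sub_re, Complex.sub_im] at h0 ⊢
    linear_combination h0) (w j)
  have s3 := anyw hn (update (update v i P) j (w j)) k i j (by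
    rw [update_self, update_of_ne hij, update_of_ne hjk'.symm, update_self, update_of_ne hik.symm]
    intro h0
    apply t2
    simp only [D, Complex.sub_re, Complex.sub_im] at h0 ⊢
    linear_combination h0) (w k)
  have s4 := anyw hn (update (update (update v i P) j (w j)) k (w k)) i j k (by
    rw [update_self, update_of_ne hjk', update_of_ne hik, update_self, update_of_ne hij,
      update_self]
    exact t3) (w i)
  set u := update (update (update (update v i P) j (w j)) k (w k)) i (w i) with hu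
  have ui : u i = w i := by simp [hu]
  have uj : u j = w j := by simp [hu, update_of_ne hij.symm, update_of_ne hjk']
  have uk : u k = w k := by simp [hu, update_of_ne hik.symm]
  have s5 : ∀ S : Finset (Fin n), Reach u (fun l => if l ∈ S then w l else u l) := by
    intro S
    induction S using Finset.induction_on with
    | empty => simpa using Relation.ReflTransGen.refl
    | insert a S ha ih =>
      have e : (fun l => if l ∈ insert a S then w l else u l) =
          update (fun l => if l ∈ S then w l else u l) a (w a) := by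
        funext l
        by_cases hl : l = a
        · subst hl
          simp
        · simp [update_of_ne hl, hl]
      by_cases hh : a = i ∨ a = j ∨ a = k
      · have : u a = w a := by rcases hh with rfl | rfl | rfl <;> assumption
        convert ih using 1
        funext l
        by_cases hl : l = a
        · subst hl
          simp [this]
        · simp [hl]
      · push Not at hh
        rw [e]
        refine ih.trans (free hn _ a j k i hh.2.1 hh.2.2 hh.1 ?_ _)
        simpa [ui, uj, uk] using hw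
  have s6 := s5 univ
  simp only [mem_univ, if_true] at s6
  exact s1.trans (s2.trans (s3.trans (s4.trans s6)))

lemma circ (c a b d : ℂ) (ha : ‖a‖ = 1) (hb : ‖b‖ = 1) (hd : ‖d‖ = 1) (h1 : a ≠ b) (h2 : a ≠ d)
    (h3 : b ≠ d) : D (c + a) (c + b) (c + d) ≠ 0 := by
  intro h
  have n1 : ∀ z : ℂ, ‖z‖ = 1 → z.re ^ 2 + z.im ^ 2 = 1 := by
    intro z hz
    have := Complex.sq_norm z
    rw [hz, Complex.normSq_apply] at this
    linarith
  have n2 : ∀ z w : ℂ, z ≠ w → 0 < (z.re - w.re) ^ 2 + (z.im - w.im) ^ 2 := by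
    intro z w hzw
    by_contra hc
    apply hzw
    apply Complex.ext <;> nlinarith [sq_nonneg (z.re - w.re), sq_nonneg (z.im - w.im)]
  have p1 := n2 _ _ h1
  have p2 := n2 _ _ h2
  have p3 := n2 _ _ h3
  have a1 := n1 _ ha
  have b1 := n1 _ hb
  have d1 := n1 _ hd
  simp only [D, Complex.sub_re, Complex.sub_im, Complex.add_re, Complex.add_im] at h
  set u1 := b.re - a.re
  set u2 := b.im - a.im
  set w1 := d.re - a.re
  set w2 := d.im - a.im
  have hb1 : b.re = a.re + u1 := by ring
  have hb2 : b.im = a.im + u2 := by ring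
  have hd1 : d.re = a.re + w1 := by ring
  have hd2 : d.im = a.im + w2 := by ring
  rw [hb1, hb2] at p1 p3 b1 h
  rw [hd1, hd2] at p2 p3 d1 h
  clear_value u1 u2 w1 w2
  have hdet : u1 * w2 - u2 * w1 = 0 := by linear_combination h
  have q1 : (u1 ^ 2 + u2 ^ 2) * ((w1 ^ 2 + w2 ^ 2) - (u1 * w1 + u2 * w2)) = 0 := by
    linear_combination (u1 ^ 2 + u2 ^ 2) * (d1 - a1) - (u1 * w1 + u2 * w2) * (b1 - a1) +
      2 * (a.re * u2 - a.im * u1) * hdet
  have q2 : (w1 ^ 2 + w2 ^ 2) * ((u1 ^ 2 + u2 ^ 2) - (u1 * w1 + u2 * w2)) = 0 := by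
    linear_combination (w1 ^ 2 + w2 ^ 2) * (b1 - a1) - (u1 * w1 + u2 * w2) * (d1 - a1) -
      2 * (a.re * w2 - a.im * w1) * hdet
  rcases mul_eq_zero.1 q1 with q1 | q1
  · nlinarith
  rcases mul_eq_zero.1 q2 with q2 | q2
  · nlinarith
  nlinarith

lemma simple_nc (hn : 3 ≤ n) (v : Fin n → ℂ) (hv : IsSimple v) :
    ∃ i j k, D (v j) (v k) (v i) ≠ 0 := by
  obtain ⟨m, rfl⟩ : ∃ m, n = m + 3 := ⟨n - 3, by omega⟩
  obtain ⟨i, -, hi⟩ := exists_max_image univ (fun k => Complex.normSq (v k)) univ_nonempty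
  obtain ⟨hinj, hs⟩ := hv
  have h1 : (1 : Fin (m + 3)) ≠ 0 := by simp
  have h2 : (1 + 1 : Fin (m + 3)) ≠ 0 := by
    intro h
    have := congrArg Fin.val h
    simp [Fin.val_add, Nat.mod_eq_of_lt] at this
  have a1 : i - 1 ≠ i := by simpa using h1
  have a2 : i + 1 ≠ i := by simpa using h1
  have a3 : i + 1 ≠ i - 1 := by
    intro h
    apply h2
    have h' : i + (1 + 1) = i + 0 := by rw [← add_assoc, h, sub_add_cancel, add_zero]
    exact add_left_cancel h'
  have hseg := hs (i - 1) i a1
  simp only [finRotate_apply, sub_add_cancel] at hseg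
  refine ⟨i + 1, i, i - 1, fun h => ?_⟩
  have u0 : v (i - 1) - v i ≠ 0 := sub_ne_zero.2 (hinj.ne a1)
  have up : 0 < (v (i - 1) - v i).re ^ 2 + (v (i - 1) - v i).im ^ 2 := by
    have := Complex.normSq_pos.2 u0
    rw [Complex.normSq_apply] at this
    nlinarith
  obtain ⟨l, t, e⟩ := solve (v (i - 1) - v i) (Complex.I * (v (i - 1) - v i)) (v (i + 1) - v i)
    (by simp only [Complex.I_mul_re, Complex.I_mul_im]; nlinarith)
  have ht : t = 0 := by
    rw [D, e] at h
    simp only [Complex.add_re, Complex.add_im, Complex.re_ofReal_mul, Complex.im_ofReal_mul,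
      Complex.I_mul_re, Complex.I_mul_im] at h
    have : t * ((v (i - 1) - v i).re ^ 2 + (v (i - 1) - v i).im ^ 2) = 0 := by
      linear_combination h
    exact (mul_eq_zero.1 this).resolve_right up.ne'
  subst ht
  simp only [Complex.ofReal_zero, zero_mul, add_zero] at e
  have m1 := hi (i - 1) (mem_univ _)
  have m2 := hi (i + 1) (mem_univ _)
  have hl0 : l ≠ 0 := by
    rintro rfl
    apply a2
    apply hinj
    simpa [sub_eq_zero] using e
  have hl : 0 < l := by
    by_contra hc
    have hc : l < 0 := lt_of_le_of_ne (not_lt.1 hc) hl0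
    have e1 : v (i - 1) = v i + (v (i - 1) - v i) := by ring
    have e2 : v (i + 1) = v i + l * (v (i - 1) - v i) := by linear_combination e
    rw [e1] at m1
    rw [e2] at m2
    generalize v (i - 1) - v i = u at *
    simp only [Complex.normSq_apply, Complex.add_re, Complex.add_im, Complex.re_ofReal_mul,
      Complex.im_ofReal_mul] at m1 m2
    nlinarith [mul_pos (mul_pos_of_neg_of_neg hc hc) up, mul_pos (neg_pos.2 hc) up]
  rcases le_total l 1 with hl1 | hl1
  · have := hseg (show v (i + 1) ∈ _ from ⟨⟨l, 1 - l, hl.le, by linarith, by ring, by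
      simp only [Complex.real_smul]; push_cast; linear_combination -e⟩,
      right_mem_segment _ _ _⟩)
    rcases this.1 with h' | h'
    · exact a3 (hinj h')
    · exact a2 (hinj h')
  · have hl' : (l : ℂ) ≠ 0 := by exact_mod_cast hl0
    have := hseg (show v (i - 1) ∈ _ from ⟨left_mem_segment _ _ _, ⟨1 - 1 / l, 1 / l,
      by rw [sub_nonneg, div_le_one hl]; exact hl1, by positivity, by ring, by
      simp only [Complex.real_smul]; push_cast; field_simp; linear_combination e⟩⟩)
    rcases this.2 with h' | h'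
    · exact a1 (hinj h')
    · exact a3 (hinj h').symm

/-- Every simple polygon can be carried to a regular polygon by vertex-centroid moves. -/
theorem result (n : ℕ) (hn : 3 ≤ n) (v : Fin n → ℂ) (hv : IsSimple v) :
    ∃ w : Fin n → ℂ, IsRegular w ∧ Relation.ReflTransGen Move v w := by
  obtain ⟨i, j, k, h⟩ := simple_nc hn v hv
  have hij : i ≠ j := by
    rintro rfl
    exact h (by simp [D])
  have hik : i ≠ k := by
    rintro rfl
    exact h (by simp only [D]; ring)
  have hjk : j ≠ k := by
    rintro rfl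
    exact h (by simp [D])
  have hz := Complex.isPrimitiveRoot_exp n (by omega)
  set ζ := Complex.exp (2 * Real.pi * Complex.I / n) with hζ
  have hnorm : ∀ a : ℕ, ‖ζ ^ a‖ = 1 := fun a => by
    rw [norm_pow, hz.norm'_eq_one (by omega), one_pow]
  have hne : ∀ a b : Fin n, a ≠ b → ζ ^ (a : ℕ) ≠ ζ ^ (b : ℕ) := fun a b hab e =>
    hab (Fin.ext (hz.pow_inj a.2 b.2 e))
  refine ⟨fun l => v k + ζ ^ (l : ℕ), ⟨v k, 1, one_ne_zero, Or.inl fun l => ?_⟩, ?_⟩
  · beta_reduce
    rw [one_mul, hζ, ← Complex.exp_nat_mul]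
    congr 2
    ring
  · refine reach_all hn v _ i j k h (circ _ _ _ _ (hnorm _) (hnorm _) (hnorm _) (hne _ _ hjk)
      (hne _ _ hij.symm) (hne _ _ hik.symm)) ?_
    intro e
    have e' : ζ ^ (j : ℕ) = 0 := by simpa using e
    have := hnorm j
    rw [e'] at this
    simp at this

end Pool.Agent.Results.MP_06c496_co.Regularize
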